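import Mathlib

open Filter Topology Cardinal Set

/-!
# MP_af568f_an: an infinite-dimensional locally convex space without basic sequences

The space is the space `V` of finitely supported scalar families on a well-ordered set `I` of
order type the initial ordinal of the continuum, with a weak topology given by functionals
`t α` (`α ∈ I`) that are chosen by transfinite recursion.

* `t α` kills the unit vectors with index at least `α` and is injective on the vectors supported
  below `α` with coefficients in a subfield `F α` of cardinality less than the continuum,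
* all sequences of `V` are enumerated (each one cofinally often) as `s α`, and `t α` has absolute
  value at least one on all terms of `s α` if that sequence is linearly independent and supported
  below `α`.

Hence no linearly independent sequence of `V` tends to zero, while no countable-dimensional
infinite-dimensional subspace of `V` is closed. The two facts exclude basic sequences.
-/

namespace Pool.Agent.Results.MP_af568f_an.NoBasicSequence

theorem mk_rclike (𝕜 : Type) [RCLike 𝕜] : #𝕜 = 𝔠 := by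
  apply le_antisymm
  · have hinj : Function.Injective (fun z : 𝕜 => (RCLike.re z, RCLike.im z)) := by
      intro z w h
      simp only [Prod.mk.injEq] at h
      exact RCLike.ext h.1 h.2
    have h1 := mk_le_of_injective hinj
    rwa [mk_prod, lift_id, mk_real, continuum_mul_self] at h1
  · have hinj : Function.Injective (fun r : ℝ => (r : 𝕜)) := RCLike.ofReal_injective
    have h1 := mk_le_of_injective hinj
    rwa [mk_real] at h1

theorem exists_generic {𝕜 : Type} [RCLike 𝕜] (F : Subfield 𝕜) (hF : #F < 𝔠) {W : Type}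
    [AddCommGroup W] [Module F W] (hW : Module.rank F W < 𝔠) (S : Set W)
    (hS : LinearIndepOn F id S) :
    ∃ τ : W →ₗ[F] 𝕜, Function.Injective τ ∧ ∀ w ∈ S, 1 ≤ ‖τ w‖ := by
  classical
  let bW := Module.Basis.extend hS
  let bK := Module.Basis.ofVectorSpace F 𝕜
  have hrK : Module.rank F 𝕜 = 𝔠 := by
    have : Infinite F := by
      have : CharZero F := inferInstance
      exact Infinite.of_injective (fun n : ℕ => (n : F)) Nat.cast_injective
    have h1 := Module.Free.rank_eq_mk_of_infinite_lt F 𝕜 (by simpa [mk_rclike 𝕜] using hF)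
    rw [h1, mk_rclike]
  have hle : #(hS.extend (Set.subset_univ S)) ≤ #(Module.Basis.ofVectorSpaceIndex F 𝕜) := by
    rw [bW.mk_eq_rank'', bK.mk_eq_rank'', hrK]
    exact hW.le
  obtain ⟨g⟩ := hle
  have hne : ∀ k, bK k ≠ 0 := bK.ne_zero
  have hN : ∀ k, ∃ n : ℕ, 0 < n ∧ 1 ≤ n * ‖bK k‖ := by
    intro k
    have hpos : 0 < ‖bK k‖ := norm_pos_iff.2 (hne k)
    obtain ⟨n, hn⟩ := exists_nat_gt (1 / ‖bK k‖)
    rw [div_lt_iff₀ hpos] at hn
    refine ⟨n, ?_, hn.le⟩
    rcases Nat.eq_zero_or_pos n with h | h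
    · subst h
      norm_num at hn
    · exact h
  choose N hN0 hN1 using hN
  let v : hS.extend (Set.subset_univ S) → 𝕜 := fun i => (N (g i) : F) • bK (g i)
  have hv : LinearIndependent F v := by
    have h1 : LinearIndependent F (fun i => bK (g i)) := bK.linearIndependent.comp g g.injective
    have hunit : ∀ i, ((N (g i) : F)) ≠ 0 := by
      intro i
      have := hN0 (g i)
      exact_mod_cast this.ne'
    exact h1.units_smul (fun i => Units.mk0 _ (hunit i))
  refine ⟨(Finsupp.linearCombination F v).comp bW.repr.toLinearMap, ?_, ?_⟩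
  · intro x y hxy
    have h1 : Finsupp.linearCombination F v (bW.repr x) = Finsupp.linearCombination F v (bW.repr y) :=
      hxy
    have h2 : Function.Injective (Finsupp.linearCombination F v) := hv
    exact bW.repr.injective (h2 h1)
  · intro w hw
    have hw' : w ∈ hS.extend (Set.subset_univ S) := hS.subset_extend _ hw
    have h1 : bW ⟨w, hw'⟩ = w := Module.Basis.extend_apply_self hS _
    have h2 : (Finsupp.linearCombination F v).comp bW.repr.toLinearMap w = v ⟨w, hw'⟩ := by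
      nth_rw 1 [← h1]
      rw [LinearMap.comp_apply]
      simp
    rw [h2]
    simp only [v]
    have h3 : ((N (g ⟨w, hw'⟩) : F)) • bK (g ⟨w, hw'⟩) = (N (g ⟨w, hw'⟩) : 𝕜) * bK (g ⟨w, hw'⟩) := by
      rw [Subfield.smul_def]
      simp
    rw [h3, norm_mul, RCLike.norm_natCast]
    exact hN1 _



section Wspace

variable {I : Type} [LinearOrder I] {𝕜 : Type} [RCLike 𝕜]

/-- `w` has coefficients in `F` and is supported below `α`. -/
def InW (α : I) (F : Subfield 𝕜) (w : I →₀ 𝕜) : Prop := (∀ β, w β ∈ F) ∧ ∀ β, α ≤ β → w β = 0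

/-- The inclusion of `F`-valued finitely supported functions on `Iio α`. -/
noncomputable def toV (α : I) (F : Subfield 𝕜) (w : {β : I // β < α} →₀ F) : I →₀ 𝕜 :=
  w.sum (fun β c => Finsupp.single (β : I) (c : 𝕜))

theorem toV_apply_of_lt {α : I} {F : Subfield 𝕜} (w : {β : I // β < α} →₀ F) (β : I) (h : β < α) :
    toV α F w β = (w ⟨β, h⟩ : 𝕜) := by
  classical
  rw [toV, Finsupp.sum, Finsupp.finsetSum_apply]
  by_cases hβ : (⟨β, h⟩ : {β : I // β < α}) ∈ w.support
  · rw [Finset.sum_eq_single (⟨β, h⟩ : {β : I // β < α})]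
    · simp
    · intro b _ hb
      rw [Finsupp.single_apply, if_neg]
      exact fun h' => hb (Subtype.ext h')
    · exact fun h' => absurd hβ h'
  · rw [Finset.sum_eq_zero]
    · rw [Finsupp.notMem_support_iff.1 hβ]
      rfl
    · intro b hb
      rw [Finsupp.single_apply, if_neg]
      intro h'
      apply hβ
      have : (⟨β, h⟩ : {β : I // β < α}) = b := Subtype.ext h'.symm
      rwa [this]

theorem toV_apply_of_ge {α : I} {F : Subfield 𝕜} (w : {β : I // β < α} →₀ F) (β : I) (h : α ≤ β) :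
    toV α F w β = 0 := by
  classical
  rw [toV, Finsupp.sum, Finsupp.finsetSum_apply, Finset.sum_eq_zero]
  intro b _
  rw [Finsupp.single_apply, if_neg]
  intro h'
  have := b.2
  rw [h'] at this
  exact absurd this (not_lt.2 h)

theorem exists_toV {α : I} {F : Subfield 𝕜} (w : I →₀ 𝕜) (hw : InW α F w) :
    ∃ w', toV α F w' = w := by
  classical
  let w' : {β : I // β < α} →₀ F := Finsupp.onFinset
    (w.support.subtype (fun β => β < α)) (fun β => ⟨w β, hw.1 β⟩) (by
      intro β hβ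
      rw [Finset.mem_subtype, Finsupp.mem_support_iff]
      intro h0
      exact hβ (Subtype.ext h0))
  refine ⟨w', ?_⟩
  ext β
  rcases lt_or_ge β α with h | h
  · rw [toV_apply_of_lt w' β h]
    rfl
  · rw [toV_apply_of_ge w' β h, hw.2 β h]

theorem toV_inj {α : I} {F : Subfield 𝕜} {w w' : {β : I // β < α} →₀ F} (h : toV α F w = toV α F w') :
    w = w' := by
  ext β
  have h1 := DFunLike.congr_fun h (β : I)
  rwa [toV_apply_of_lt w β β.2, toV_apply_of_lt w' β β.2] at h1

theorem toV_lin {α : I} {F : Subfield 𝕜} {ι : Type} (s : Finset ι) (c : ι → F)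
    (w : ι → ({β : I // β < α} →₀ F)) :
    toV α F (∑ i ∈ s, c i • w i) = ∑ i ∈ s, (c i : 𝕜) • toV α F (w i) := by
  ext β
  rw [Finsupp.finsetSum_apply]
  rcases lt_or_ge β α with h | h
  · rw [toV_apply_of_lt _ β h, Finsupp.finsetSum_apply]
    push_cast
    refine Finset.sum_congr rfl (fun i _ => ?_)
    simp only [Pi.smul_apply, smul_eq_mul, toV_apply_of_lt _ β h]
    rfl
  · rw [toV_apply_of_ge _ β h, Finset.sum_eq_zero]
    intro i _
    rw [Finsupp.smul_apply, toV_apply_of_ge _ β h, smul_zero]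

open Classical in
/-- Extension of an `F`-linear functional to a `𝕜`-linear map vanishing on the later unit
vectors. -/
noncomputable def extT {α : I} {F : Subfield 𝕜} (τ : ({β : I // β < α} →₀ F) →ₗ[F] 𝕜) :
    (I →₀ 𝕜) →ₗ[𝕜] 𝕜 :=
  Finsupp.linearCombination 𝕜
    (fun β => if h : β < α then τ (Finsupp.single ⟨β, h⟩ 1) else 0)

theorem extT_single {α : I} {F : Subfield 𝕜} (τ : ({β : I // β < α} →₀ F) →ₗ[F] 𝕜) (β : I)
    (h : β < α) : extT τ (Finsupp.single β 1) = τ (Finsupp.single ⟨β, h⟩ 1) := by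
  simp [extT, h]

theorem extT_single' {α : I} {F : Subfield 𝕜} (τ : ({β : I // β < α} →₀ F) →ₗ[F] 𝕜) (β : I)
    (h : α ≤ β) : extT τ (Finsupp.single β 1) = 0 := by
  simp [extT, not_lt.2 h]

theorem extT_toV {α : I} {F : Subfield 𝕜} (τ : ({β : I // β < α} →₀ F) →ₗ[F] 𝕜)
    (w : {β : I // β < α} →₀ F) : extT τ (toV α F w) = τ w := by
  have h1 : τ w = ∑ β ∈ w.support, τ (Finsupp.single β (w β)) := by
    conv_lhs => rw [← Finsupp.sum_single w, Finsupp.sum, map_sum]
  rw [h1, toV, Finsupp.sum, map_sum]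
  refine Finset.sum_congr rfl (fun β _ => ?_)
  have h2 : Finsupp.single (β : I) (w β : 𝕜) = (w β : 𝕜) • Finsupp.single (β : I) (1 : 𝕜) := by
    rw [Finsupp.smul_single, smul_eq_mul, mul_one]
  have h3 : Finsupp.single β (w β) = (w β) • Finsupp.single β (1 : F) := by
    rw [Finsupp.smul_single, smul_eq_mul, mul_one]
  rw [h2, h3, map_smul, map_smul, extT_single τ _ β.2, Subfield.smul_def, smul_eq_mul]

theorem exists_tau (α : I) (hα : #{β : I // β < α} < 𝔠) (F : Subfield 𝕜) (hF : #F < 𝔠)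
    (S : Set ({β : I // β < α} →₀ F)) (hS : LinearIndepOn F id S) :
    ∃ τ : ({β : I // β < α} →₀ F) →ₗ[F] 𝕜, Function.Injective τ ∧ ∀ w ∈ S, 1 ≤ ‖τ w‖ := by
  refine exists_generic F hF ?_ S hS
  rw [rank_finsupp_self']
  exact hα

theorem step (α : I) (hα : #{β : I // β < α} < 𝔠) (F : Subfield 𝕜) (hF : #F < 𝔠)
    (σ : ℕ → (I →₀ 𝕜)) :
    ∃ t : (I →₀ 𝕜) →ₗ[𝕜] 𝕜,
      (∀ β, α ≤ β → t (Finsupp.single β 1) = 0) ∧
      (∀ w : I →₀ 𝕜, InW α F w → t w = 0 → w = 0) ∧
      (LinearIndependent 𝕜 σ → (∀ n, InW α F (σ n)) → ∀ n, 1 ≤ ‖t (σ n)‖) := by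
  have hinj : ∀ τ : ({β : I // β < α} →₀ F) →ₗ[F] 𝕜, Function.Injective τ →
      ∀ w : I →₀ 𝕜, InW α F w → extT τ w = 0 → w = 0 := by
    intro τ hτ w hw h0
    obtain ⟨w', rfl⟩ := exists_toV w hw
    rw [extT_toV] at h0
    have h1 : w' = 0 := hτ (by rw [h0, map_zero])
    rw [h1, toV, Finsupp.sum_zero_index]
  by_cases h : LinearIndependent 𝕜 σ ∧ ∀ n, InW α F (σ n)
  · choose σ' hσ' using fun n => exists_toV (σ n) (h.2 n)
    have h5 : LinearIndependent F σ' := by
      rw [linearIndependent_iff']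
      intro s g hg i hi
      have h6 := toV_lin (𝕜 := 𝕜) s g σ'
      rw [hg] at h6
      have h7 : ∑ i ∈ s, (g i : 𝕜) • σ i = 0 := by
        simp only [hσ'] at h6
        rw [← h6, toV, Finsupp.sum_zero_index]
      have h8 := linearIndependent_iff'.1 h.1 s (fun i => (g i : 𝕜)) h7 i hi
      exact Subtype.ext h8
    obtain ⟨τ, hτ1, hτ2⟩ := exists_tau (𝕜 := 𝕜) α hα F hF (Set.range σ') h5.linearIndepOn_id
    refine ⟨extT τ, extT_single' τ, hinj τ hτ1, ?_⟩
    intro _ _ n
    rw [← hσ' n, extT_toV]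
    exact hτ2 _ ⟨n, rfl⟩
  · obtain ⟨τ, hτ1, -⟩ := exists_tau (𝕜 := 𝕜) α hα F hF ∅ (linearIndepOn_empty _ _)
    exact ⟨extT τ, extT_single' τ, hinj τ hτ1, fun h1 h2 => absurd ⟨h1, h2⟩ h⟩

end Wspace



section Recursion

variable {I : Type} [LinearOrder I] [WellFoundedLT I] {𝕜 : Type} [RCLike 𝕜]

/-- The scalars that must be known at stage `α`. -/
def Fset (s : I → ℕ → (I →₀ 𝕜)) (α : I) (prev : ∀ γ : I, γ < α → ((I →₀ 𝕜) →ₗ[𝕜] 𝕜)) : Set 𝕜 :=
  (Set.range (fun p : {β : I // β < α} × {β : I // β < α} =>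
      prev p.1.1 p.1.2 (Finsupp.single p.2.1 1)) ∪
    Set.range (fun p : {β : I // β < α} × ℕ × {β : I // β < α} => s p.1.1 p.2.1 p.2.2.1)) ∪
    Set.range (fun p : ℕ × {β : I // β < α} => s α p.1 p.2.1)

omit [WellFoundedLT I] in
theorem mk_Fset (s : I → ℕ → (I →₀ 𝕜)) (α : I) (hα : #{β : I // β < α} < 𝔠)
    (prev : ∀ γ : I, γ < α → ((I →₀ 𝕜) →ₗ[𝕜] 𝕜)) : #(Fset s α prev) < 𝔠 := by
  have h0 : (ℵ₀ : Cardinal.{0}) ≤ 𝔠 := aleph0_le_continuum
  have hN : #ℕ < 𝔠 := by
    rw [mk_nat]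
    exact aleph0_lt_continuum
  refine lt_of_le_of_lt (mk_union_le _ _) (add_lt_of_lt h0 ?_ ?_)
  · refine lt_of_le_of_lt (mk_union_le _ _) (add_lt_of_lt h0 ?_ ?_)
    · refine lt_of_le_of_lt mk_range_le ?_
      rw [mk_prod, lift_id]
      exact mul_lt_of_lt h0 hα hα
    · refine lt_of_le_of_lt mk_range_le ?_
      simp only [mk_prod, lift_id]
      exact mul_lt_of_lt h0 hα (mul_lt_of_lt h0 (by simpa using hN) hα)
  · refine lt_of_le_of_lt mk_range_le ?_
    rw [mk_prod, lift_id, lift_id]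
    exact mul_lt_of_lt h0 hN hα

theorem exists_t (hI : ∀ i : I, #{β : I // β < i} < 𝔠) (s : I → ℕ → (I →₀ 𝕜)) :
    ∃ (t : I → ((I →₀ 𝕜) →ₗ[𝕜] 𝕜)) (F : I → Subfield 𝕜),
      (∀ α γ β, γ < α → β < α → t γ (Finsupp.single β 1) ∈ F α) ∧
      (∀ α β n i, β ≤ α → i < α → s β n i ∈ F α) ∧
      (∀ α β, α ≤ β → t α (Finsupp.single β 1) = 0) ∧
      (∀ α w, InW α (F α) w → t α w = 0 → w = 0) ∧
      (∀ α, LinearIndependent 𝕜 (s α) → (∀ n, InW α (F α) (s α n)) →
        ∀ n, 1 ≤ ‖t α (s α n)‖) := by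
  have hF : ∀ (α : I) (prev : ∀ γ : I, γ < α → ((I →₀ 𝕜) →ₗ[𝕜] 𝕜)),
      #(Subfield.closure (Fset s α prev)) < 𝔠 := by
    intro α prev
    refine lt_of_le_of_lt (Subfield.cardinalMk_closure_le_max _) ?_
    exact max_lt (mk_Fset s α (hI α) prev) aleph0_lt_continuum
  choose nxt h1 h2 h3 using fun (α : I) (prev : ∀ γ : I, γ < α → ((I →₀ 𝕜) →ₗ[𝕜] 𝕜)) =>
    step α (hI α) (Subfield.closure (Fset s α prev)) (hF α prev) (s α)
  let t : I → ((I →₀ 𝕜) →ₗ[𝕜] 𝕜) :=
    (wellFounded_lt (α := I)).fix (C := fun _ => ((I →₀ 𝕜) →ₗ[𝕜] 𝕜)) nxt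
  have ht : ∀ α, t α = nxt α (fun γ _ => t γ) := fun α =>
    (wellFounded_lt (α := I)).fix_eq (C := fun _ => ((I →₀ 𝕜) →ₗ[𝕜] 𝕜)) nxt α
  refine ⟨t, fun α => Subfield.closure (Fset s α (fun γ _ => t γ)), ?_, ?_, ?_, ?_, ?_⟩
  · intro α γ β hγ hβ
    refine Subfield.subset_closure (Or.inl (Or.inl ⟨(⟨γ, hγ⟩, ⟨β, hβ⟩), rfl⟩))
  · intro α β n i hβ hi
    rcases lt_or_eq_of_le hβ with h | h
    · exact Subfield.subset_closure (Or.inl (Or.inr ⟨(⟨β, h⟩, n, ⟨i, hi⟩), rfl⟩))
    · subst h
      exact Subfield.subset_closure (Or.inr ⟨(n, ⟨i, hi⟩), rfl⟩)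
  · intro α β h
    rw [ht]
    exact h1 α _ β h
  · intro α w hw h0
    rw [ht] at h0
    exact h2 α _ w hw h0
  · intro α hLI hs n
    rw [ht]
    exact h3 α _ hLI hs n

omit [WellFoundedLT I] in
theorem exists_enum (hI0 : #I = 𝔠) (hI : ∀ i : I, #{β : I // β < i} < 𝔠) :
    ∃ s : I → ℕ → (I →₀ 𝕜), ∀ (s' : ℕ → (I →₀ 𝕜)) (b : I), ∃ α, b ≤ α ∧ s α = s' := by
  have : Infinite I := by
    rw [Cardinal.infinite_iff, hI0]
    exact aleph0_le_continuum
  have hV : #(I →₀ 𝕜) = 𝔠 := by
    rw [mk_finsupp_of_infinite', hI0, mk_rclike, max_self]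
  have hS : #((ℕ → (I →₀ 𝕜)) × I) = 𝔠 := by
    rw [mk_prod, lift_id, lift_id, hI0, ← power_def, mk_nat, hV, continuum_power_aleph0,
      continuum_mul_self]
  obtain ⟨e⟩ := Cardinal.eq.1 (hI0.trans hS.symm)
  refine ⟨fun α => (e α).1, fun s' b => ?_⟩
  by_contra hcon
  push Not at hcon
  have h1 : ∀ j : I, e.symm (s', j) < b := by
    intro j
    by_contra h
    exact hcon (e.symm (s', j)) (not_lt.1 h) (by rw [Equiv.apply_symm_apply])
  have h2 : #I ≤ #{β : I // β < b} := by
    refine mk_le_of_injective (f := fun j => ⟨e.symm (s', j), h1 j⟩) ?_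
    intro j k hjk
    have h3 : e.symm (s', j) = e.symm (s', k) := congrArg Subtype.val hjk
    have h4 := e.symm.injective h3
    exact (Prod.mk.inj h4).2
  rw [hI0] at h2
  exact absurd (lt_of_le_of_lt h2 (hI b)) (lt_irrefl _)

end Recursion


theorem exists_index : ∃ (I : Type) (_ : LinearOrder I) (_ : WellFoundedLT I),
    #I = 𝔠 ∧ (∀ i : I, #(Set.Iio i) < 𝔠) ∧
      ∀ A : Set I, A.Countable → ∃ b, ∀ a ∈ A, a < b := by
  refine ⟨(𝔠 : Cardinal.{0}).ord.ToType, inferInstance, inferInstance, ?_, ?_, ?_⟩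
  · simp
  · intro i
    have h := mk_Iio_lt i (by simp)
    simpa using h
  · intro A hA
    have hcof : ℵ₀ < Order.cof (𝔠 : Cardinal.{0}).ord.ToType := by
      rw [Ordinal.cof_toType]
      have := lt_cof_ord_power (a := ℵ₀) (b := 2) le_rfl (by norm_num)
      rwa [two_power_aleph0] at this
    have hnot : ¬ IsCofinal A := by
      intro h
      have h1 := Order.cof_le h
      have h2 : #A ≤ ℵ₀ := hA.le_aleph0
      exact absurd (lt_of_lt_of_le hcof (h1.trans h2)) (lt_irrefl _)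
    unfold IsCofinal at hnot
    push Not at hnot
    exact hnot

section Main

variable {I : Type} [LinearOrder I] {𝕜 : Type} [RCLike 𝕜]

/-- The properties of the functionals `t` that are used. -/
structure Good (t : I → ((I →₀ 𝕜) →ₗ[𝕜] 𝕜)) (F : I → Subfield 𝕜) (s : I → ℕ → (I →₀ 𝕜)) :
    Prop where
  a : ∀ α γ β, γ < α → β < α → t γ (Finsupp.single β 1) ∈ F α
  b : ∀ α β n i, β ≤ α → i < α → s β n i ∈ F α
  c : ∀ α β, α ≤ β → t α (Finsupp.single β 1) = 0
  d : ∀ α w, InW α (F α) w → t α w = 0 → w = 0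
  e : ∀ α, LinearIndependent 𝕜 (s α) → (∀ n, InW α (F α) (s α n)) → ∀ n, 1 ≤ ‖t α (s α n)‖
  en : ∀ (s' : ℕ → (I →₀ 𝕜)) (b : I), ∃ α, b ≤ α ∧ s α = s'
  cof : ∀ A : Set I, A.Countable → ∃ b, ∀ a ∈ A, a < b

variable {t : I → ((I →₀ 𝕜) →ₗ[𝕜] 𝕜)} {F : I → Subfield 𝕜} {s : I → ℕ → (I →₀ 𝕜)}

theorem Good.exists_index (h : Good t F s) (s' : ℕ → (I →₀ 𝕜)) :
    ∃ α, s α = s' ∧ (∀ n, InW α (F α) (s' n)) := by
  obtain ⟨b, hb⟩ := h.cof (⋃ n, ((s' n).support : Set I))
    (Set.countable_iUnion (fun n => (s' n).support.countable_toSet))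
  obtain ⟨α, hα, rfl⟩ := h.en s' b
  have h0 : ∀ n β, α ≤ β → s α n β = 0 := by
    intro n β hβ
    by_contra hne
    have h1 : β ∈ ⋃ n, ((s α n).support : Set I) :=
      Set.mem_iUnion.2 ⟨n, by simpa using hne⟩
    exact absurd (hb β h1) (not_lt.2 (hα.trans hβ))
  refine ⟨α, rfl, fun n => ⟨fun β => ?_, h0 n⟩⟩
  rcases lt_or_ge β α with h1 | h1
  · exact h.b α α n β le_rfl h1
  · rw [h0 n β h1]
    exact (F α).zero_mem

theorem Good.inj (h : Good t F s) (v : I →₀ 𝕜) (hv : ∀ α, t α v = 0) : v = 0 := by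
  obtain ⟨α, -, hα⟩ := h.exists_index (fun _ => v)
  exact h.d α v (hα 0) (hv α)

/-- The key point: above the index `α` of the sequence the functionals are independent on the
span of the sequence. -/
theorem Good.exists_vec (h : Good t F s) {α : I} (hLI : LinearIndependent 𝕜 (s α))
    (hα : ∀ n, InW α (F α) (s α n)) (T : Finset I) (μ : I) (hμ : α < μ) (hT : ∀ γ ∈ T, γ < μ) :
    ∃ y ∈ Submodule.span 𝕜 (Set.range (s α)), (∀ γ ∈ T, t γ y = 0) ∧ t μ y ≠ 0 := by
  classical
  have h1 : ∀ γ ∈ T, ∀ n, t γ (s α n) ∈ F μ := by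
    intro γ hγ n
    have h2 : t γ (s α n) = ∑ β ∈ (s α n).support, s α n β * t γ (Finsupp.single β 1) := by
      conv_lhs => rw [← Finsupp.sum_single (s α n), Finsupp.sum, map_sum]
      refine Finset.sum_congr rfl (fun β _ => ?_)
      have h3 : Finsupp.single β (s α n β) = (s α n β) • Finsupp.single β (1 : 𝕜) := by
        rw [Finsupp.smul_single, smul_eq_mul, mul_one]
      rw [h3, map_smul, smul_eq_mul]
    rw [h2]
    refine Subfield.sum_mem _ (fun β hβ => ?_)
    have hβα : β < α := by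
      by_contra hcon
      exact (Finsupp.mem_support_iff.1 hβ) ((hα n).2 β (not_lt.1 hcon))
    exact (F μ).mul_mem (h.b μ α n β hμ.le (hβα.trans hμ))
      (h.a μ γ β (hT γ hγ) (hβα.trans hμ))
  let L : (Fin (T.card + 1) → F μ) →ₗ[F μ] (T → F μ) :=
    LinearMap.pi (fun γ => ∑ n : Fin (T.card + 1),
      (⟨t γ.1 (s α n), h1 γ.1 γ.2 n⟩ : F μ) • LinearMap.proj n)
  have hL : LinearMap.ker L ≠ ⊥ := by
    apply LinearMap.ker_ne_bot_of_finrank_lt
    simp
  obtain ⟨lam, hlam, hlam0⟩ := Submodule.exists_mem_ne_zero_of_ne_bot hL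
  rw [LinearMap.mem_ker] at hlam
  let y : I →₀ 𝕜 := ∑ n : Fin (T.card + 1), (lam n : 𝕜) • s α n
  have hy0 : y ≠ 0 := by
    intro hy
    have hLI' : LinearIndependent 𝕜 (fun n : Fin (T.card + 1) => s α n) :=
      hLI.comp (fun n : Fin (T.card + 1) => (n : ℕ)) Fin.val_injective
    have h4 := Fintype.linearIndependent_iff.1 hLI' (fun n => (lam n : 𝕜)) hy
    apply hlam0
    ext n
    simpa using h4 n
  have hyW : InW μ (F μ) y := by
    constructor
    · intro β
      simp only [y, Finsupp.finsetSum_apply, Finsupp.smul_apply, smul_eq_mul]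
      refine Subfield.sum_mem _ (fun n _ => (F μ).mul_mem (lam n).2 ?_)
      rcases lt_or_ge β μ with hβ | hβ
      · exact h.b μ α n β hμ.le hβ
      · rw [(hα n).2 β (hμ.le.trans hβ)]
        exact (F μ).zero_mem
    · intro β hβ
      simp only [y, Finsupp.finsetSum_apply, Finsupp.smul_apply, smul_eq_mul]
      refine Finset.sum_eq_zero (fun n _ => ?_)
      rw [(hα n).2 β (hμ.le.trans hβ), mul_zero]
  refine ⟨y, ?_, ?_, fun h0 => hy0 (h.d μ y hyW h0)⟩
  · exact Submodule.sum_mem _ (fun n _ => Submodule.smul_mem _ _ (Submodule.subset_span ⟨n, rfl⟩))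
  · intro γ hγ
    have h5 := congrFun hlam ⟨γ, hγ⟩
    simp only [L, LinearMap.pi_apply, LinearMap.sum_apply, LinearMap.smul_apply,
      LinearMap.proj_apply, smul_eq_mul, Pi.zero_apply] at h5
    have h6 := congrArg (Subtype.val : F μ → 𝕜) h5
    push_cast at h6
    simp only [y, map_sum, map_smul, smul_eq_mul]
    rw [← h6]
    exact Finset.sum_congr rfl (fun n _ => mul_comm _ _)

/-- The unit vector at the index of the sequence is a weak limit of vectors of its span. -/
theorem Good.approx (h : Good t F s) {α : I} (hLI : LinearIndependent 𝕜 (s α))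
    (hα : ∀ n, InW α (F α) (s α n)) (T : Finset I) :
    ∃ y ∈ Submodule.span 𝕜 (Set.range (s α)), ∀ γ ∈ T, t γ y = t γ (Finsupp.single α 1) := by
  classical
  induction T using Finset.induction_on_max with
  | empty => exact ⟨0, Submodule.zero_mem _, by simp⟩
  | insert μ T hT ih =>
    rcases lt_or_ge α μ with hμ | hμ
    · obtain ⟨y, hy, hyT⟩ := ih
      obtain ⟨z, hz, hzT, hzμ⟩ := h.exists_vec hLI hα T μ hμ hT
      refine ⟨y + ((t μ (Finsupp.single α 1) - t μ y) / t μ z) • z,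
        Submodule.add_mem _ hy (Submodule.smul_mem _ _ hz), ?_⟩
      intro γ hγ
      rw [Finset.mem_insert] at hγ
      rcases hγ with rfl | hγ
      · rw [map_add, map_smul, smul_eq_mul, div_mul_cancel₀ _ hzμ]
        ring
      · rw [map_add, map_smul, hzT γ hγ, smul_zero, add_zero, hyT γ hγ]
    · refine ⟨0, Submodule.zero_mem _, ?_⟩
      intro γ hγ
      rw [map_zero]
      rw [Finset.mem_insert] at hγ
      have h1 : γ ≤ α := by
        rcases hγ with rfl | hγ
        · exact hμ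
        · exact ((hT γ hγ).trans_le hμ).le
      exact (h.c γ α h1).symm

theorem single_notMem_span {α : I} (hα : ∀ n, InW α (F α) (s α n)) :
    (Finsupp.single α (1 : 𝕜)) ∉ Submodule.span 𝕜 (Set.range (s α)) := by
  intro hmem
  have h1 : Submodule.span 𝕜 (Set.range (s α)) ≤ LinearMap.ker (Finsupp.lapply (R := 𝕜) α) := by
    rw [Submodule.span_le]
    rintro _ ⟨n, rfl⟩
    exact (hα n).2 α le_rfl
  have h2 := h1 hmem
  rw [LinearMap.mem_ker, Finsupp.lapply_apply, Finsupp.single_eq_same] at h2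
  exact one_ne_zero h2

end Main



/-- `x` is a basis of the closure of its linear span. -/
def IsBasicSeq (𝕜 : Type) [RCLike 𝕜] {U : Type} [AddCommGroup U] [Module 𝕜 U]
    [TopologicalSpace U] (x : ℕ → U) : Prop :=
  ∀ v ∈ closure (Submodule.span 𝕜 (Set.range x) : Set U),
    ∃! a : ℕ → 𝕜, Tendsto (fun N => ∑ n ∈ Finset.range N, a n • x n) atTop (𝓝 v)

theorem tendsto_of_finite {𝕜 : Type} [RCLike 𝕜] {U : Type} [AddCommGroup U] [Module 𝕜 U]
    [TopologicalSpace U] (x : ℕ → U) (a : ℕ → 𝕜) (S : Finset ℕ) (hS : ∀ n, n ∉ S → a n = 0) :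
    Tendsto (fun N => ∑ n ∈ Finset.range N, a n • x n) atTop (𝓝 (∑ n ∈ S, a n • x n)) := by
  apply tendsto_atTop_of_eventually_const (i₀ := S.sup id + 1)
  intro N hN
  symm
  apply Finset.sum_subset
  · intro n hn
    rw [Finset.mem_range]
    have := Finset.le_sup (f := id) hn
    simp only [id] at this
    omega
  · intro n _ hn
    rw [hS n hn, zero_smul]

theorem linearIndependent_of_basic {𝕜 : Type} [RCLike 𝕜] {U : Type} [AddCommGroup U] [Module 𝕜 U]
    [TopologicalSpace U] {x : ℕ → U} (hx : IsBasicSeq 𝕜 x) : LinearIndependent 𝕜 x := by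
  classical
  rw [linearIndependent_iff']
  intro S g hg i hi
  obtain ⟨a, -, ha⟩ := hx 0 (subset_closure (Submodule.zero_mem _))
  have h1 := ha (fun n => if n ∈ S then g n else 0) (by
    have h2 := tendsto_of_finite x (fun n => if n ∈ S then g n else 0) S
      (fun n hn => by simp [hn])
    have h3 : ∑ n ∈ S, (if n ∈ S then g n else 0) • x n = 0 := by
      rw [← hg]
      exact Finset.sum_congr rfl (fun n hn => by rw [if_pos hn])
    rwa [h3] at h2)
  have h2 := ha 0 (by
    have h3 := tendsto_of_finite x (0 : ℕ → 𝕜) ∅ (fun n _ => rfl)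
    simpa using h3)
  have h3 := congrFun (h1.trans h2.symm) i
  simpa [hi] using h3

section Final

variable {I : Type} [LinearOrder I] {𝕜 : Type} [RCLike 𝕜]
variable {t : I → ((I →₀ 𝕜) →ₗ[𝕜] 𝕜)} {F : I → Subfield 𝕜} {s : I → ℕ → (I →₀ 𝕜)}

theorem no_basic (h : Good t F s) (x : ℕ → LinearMap.range (LinearMap.pi t)) :
    ¬ IsBasicSeq 𝕜 x := by
  classical
  intro hx
  choose v hv using fun n => LinearMap.mem_range.1 (x n).2
  have hxv : ∀ n γ, (x n : I → 𝕜) γ = t γ (v n) := fun n γ => by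
    rw [← hv n, LinearMap.pi_apply]
  have hLIx := linearIndependent_of_basic hx
  have hLIv : LinearIndependent 𝕜 v := by
    have h1 : LinearIndependent 𝕜 (fun n => (x n : I → 𝕜)) :=
      hLIx.map' (LinearMap.range (LinearMap.pi t)).subtype (Submodule.ker_subtype _)
    have h2 : (fun n => (x n : I → 𝕜)) = (LinearMap.pi t) ∘ v := by
      funext n
      exact (hv n).symm
    rw [h2] at h1
    exact h1.of_comp _
  obtain ⟨α, hsα, hα⟩ := h.exists_index v
  rw [← hsα] at hLIv hα hxv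
  let u : LinearMap.range (LinearMap.pi t) := ⟨LinearMap.pi t (Finsupp.single α 1), ⟨_, rfl⟩⟩
  have hspan : ∀ y ∈ Submodule.span 𝕜 (Set.range (s α)),
      (⟨LinearMap.pi t y, ⟨_, rfl⟩⟩ : LinearMap.range (LinearMap.pi t)) ∈
        Submodule.span 𝕜 (Set.range x) := by
    intro y hy
    induction hy using Submodule.span_induction with
    | mem y hy =>
      obtain ⟨n, rfl⟩ := hy
      refine Submodule.subset_span ⟨n, ?_⟩
      apply Subtype.ext
      rw [← hv n, ← hsα]
    | zero =>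
      convert Submodule.zero_mem _
      rw [map_zero]
      rfl
    | add y z _ _ hy hz =>
      convert Submodule.add_mem _ hy hz
      rw [map_add]
      rfl
    | smul c y _ hy =>
      convert Submodule.smul_mem _ c hy
      rw [map_smul]
      rfl
  have hu : u ∈ closure (Submodule.span 𝕜 (Set.range x) : Set (LinearMap.range (LinearMap.pi t))) := by
    rw [mem_closure_iff_nhds]
    intro N hN
    rw [nhds_subtype_eq_comap, Filter.mem_comap] at hN
    obtain ⟨N', hN', hNN'⟩ := hN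
    rw [nhds_pi, Filter.mem_pi] at hN'
    obtain ⟨T, hT, W, hW, hWN⟩ := hN'
    obtain ⟨y, hy, hyT⟩ := h.approx hLIv hα hT.toFinset
    refine ⟨⟨LinearMap.pi t y, ⟨_, rfl⟩⟩, hNN' ?_, hspan y hy⟩
    apply hWN
    intro γ hγ
    have h1 : (LinearMap.pi t y) γ = (u : I → 𝕜) γ := hyT γ (hT.mem_toFinset.2 hγ)
    change (LinearMap.pi t y) γ ∈ W γ
    rw [h1]
    exact mem_of_mem_nhds (hW γ)
  obtain ⟨a, ha, -⟩ := hx u hu
  have hinf : ∀ n, ∃ m > n, a m ≠ 0 := by
    by_contra hcon
    push Not at hcon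
    obtain ⟨n, hn⟩ := hcon
    have h1 := tendsto_of_finite x a (Finset.range (n + 1)) (fun m hm => hn m (by
      rw [Finset.mem_range] at hm
      omega))
    have h2 := tendsto_nhds_unique ha h1
    apply single_notMem_span hα
    have h3 : (Finsupp.single α (1 : 𝕜)) = ∑ m ∈ Finset.range (n + 1), a m • s α m := by
      rw [← sub_eq_zero]
      apply h.inj
      intro γ
      have h4 : (u : I → 𝕜) γ =
          ((∑ m ∈ Finset.range (n + 1), a m • x m : LinearMap.range (LinearMap.pi t)) :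
            I → 𝕜) γ := by rw [← h2]
      have h5 : (u : I → 𝕜) γ = t γ (Finsupp.single α 1) := rfl
      rw [h5] at h4
      rw [map_sub, h4, map_sum, Submodule.coe_sum, Finset.sum_apply, sub_eq_zero]
      refine Finset.sum_congr rfl (fun m _ => ?_)
      rw [Submodule.coe_smul, Pi.smul_apply, hxv, map_smul]
    rw [h3]
    exact Submodule.sum_mem _ (fun m _ =>
      Submodule.smul_mem _ _ (Submodule.subset_span ⟨m, rfl⟩))
  obtain ⟨φ, hφ, hφa⟩ := Nat.exists_strictMono_subsequence hinf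
  have hLI2 : LinearIndependent 𝕜 (fun k => a (φ k) • s α (φ k)) := by
    have h1 : LinearIndependent 𝕜 (fun k => s α (φ k)) := hLIv.comp φ hφ.injective
    exact h1.units_smul (fun k => Units.mk0 _ (hφa k))
  obtain ⟨β, hsβ, hβ⟩ := h.exists_index (fun k => a (φ k) • s α (φ k))
  rw [← hsβ] at hLI2
  have hβ' : ∀ n, InW β (F β) (s β n) := by
    rw [hsβ]
    exact hβ
  have h6 := h.e β hLI2 hβ'
  rw [hsβ] at h6
  have h7 : Tendsto (fun n => a n • x n) atTop (𝓝 0) := by
    have h8 := (ha.comp (tendsto_add_atTop_nat 1)).sub ha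
    rw [sub_self] at h8
    refine h8.congr (fun n => ?_)
    simp [Finset.sum_range_succ]
  have h9 : Tendsto (fun n => ((a n • x n : LinearMap.range (LinearMap.pi t)) : I → 𝕜) β) atTop
      (𝓝 0) := by
    have h10 : Continuous (fun z : LinearMap.range (LinearMap.pi t) => (z : I → 𝕜) β) :=
      (continuous_apply β).comp continuous_subtype_val
    exact (h10.tendsto 0).comp h7
  have h12 := (h9.comp hφ.tendsto_atTop).norm
  rw [norm_zero] at h12
  have h13 : ∀ k, (1 : ℝ) ≤ ‖((a (φ k) • x (φ k) : LinearMap.range (LinearMap.pi t)) : I → 𝕜) β‖ := by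
    intro k
    rw [Submodule.coe_smul, Pi.smul_apply, hxv, ← map_smul]
    exact h6 k
  have h14 := ge_of_tendsto' h12 h13
  norm_num at h14

end Final

/-- `x` is a Schauder basis of the closure of its linear span: it is a basis and every
coefficient functional is continuous. -/
def IsSchauderBasicSeq (𝕜 : Type) [RCLike 𝕜] {U : Type} [AddCommGroup U] [Module 𝕜 U]
    [TopologicalSpace U] (x : ℕ → U) : Prop :=
  IsBasicSeq 𝕜 x ∧ ∀ (n : ℕ) (f : closure (Submodule.span 𝕜 (Set.range x) : Set U) → 𝕜),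
    (∀ v, ∃ a : ℕ → 𝕜, a n = f v ∧
      Tendsto (fun N => ∑ k ∈ Finset.range N, a k • x k) atTop (𝓝 (v : U))) → Continuous f

/-- There is an infinite-dimensional Hausdorff locally convex space that contains no basic
sequence, and hence no Schauder basic sequence. -/
theorem result (𝕜 : Type) [RCLike 𝕜] :
    ∃ (U : Type) (_ : AddCommGroup U) (_ : Module 𝕜 U) (_ : TopologicalSpace U)
      (_ : IsTopologicalAddGroup U) (_ : ContinuousSMul 𝕜 U),
      T2Space U ∧ (∃ (J : Type) (p : SeminormFamily 𝕜 U J), WithSeminorms p) ∧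
      ¬ FiniteDimensional 𝕜 U ∧ (∀ x : ℕ → U, ¬ IsBasicSeq 𝕜 x) ∧
      (∀ x : ℕ → U, ¬ IsSchauderBasicSeq 𝕜 x) := by
  obtain ⟨I, i1, i2, hI0, hI1, hI2⟩ := exists_index
  have hI1' : ∀ i : I, #{β : I // β < i} < 𝔠 := hI1
  obtain ⟨s, hs⟩ := exists_enum (𝕜 := 𝕜) hI0 hI1'
  obtain ⟨t, F, h1, h2, h3, h4, h5⟩ := exists_t (𝕜 := 𝕜) hI1' s
  have hG : Good t F s := ⟨h1, h2, h3, h4, h5, hs, hI2⟩
  refine ⟨LinearMap.range (LinearMap.pi t), inferInstance, inferInstance, inferInstance,
    inferInstance, inferInstance, inferInstance, ?_, ?_, no_basic hG,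
    fun x hx => no_basic hG x hx.1⟩
  · have : PolynormableSpace 𝕜 (LinearMap.range (LinearMap.pi t)) :=
      PolynormableSpace.induced (LinearMap.range (LinearMap.pi t)).subtype
    exact ⟨_, _, PolynormableSpace.withSeminorms 𝕜 _⟩
  · intro hfin
    have hinj : Function.Injective (LinearMap.pi t) := by
      intro v w hvw
      rw [← sub_eq_zero]
      apply hG.inj
      intro α
      have := congrFun hvw α
      simp only [LinearMap.pi_apply] at this
      rw [map_sub, this, sub_self]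
    have hfin2 : FiniteDimensional 𝕜 (I →₀ 𝕜) :=
      Module.Finite.equiv (LinearEquiv.ofInjective _ hinj).symm
    have hinfI : Infinite I := by
      rw [Cardinal.infinite_iff, hI0]
      exact aleph0_le_continuum
    have h6 : LinearIndependent 𝕜 (fun i : I => Finsupp.single i (1 : 𝕜)) :=
      (Finsupp.basisSingleOne (R := 𝕜) (ι := I)).linearIndependent
    exact absurd h6.finite (not_finite_iff_infinite.2 hinfI)

end Pool.Agent.Results.MP_af568f_an.NoBasicSequence
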